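import Pool.Agent.Helper21.CU.St

set_option autoImplicit false

open Finset

namespace Pool.Agent.Helper72.CU

open Pool.Agent.Helper21.CU

open scoped Classical in
/-- The pairs. -/
noncomputable def PP (k : ℤ) (Z : ℕ) : Finset (ℤ × ℤ) :=
  ((Icc (1 : ℤ) (2 * Z + 2 * |k|)) ×ˢ (Icc (-(Z : ℤ)) Z)).filter
    (fun i : ℤ × ℤ => i.1 ∣ i.2 ^ 3 - k ∧ IsSquare (D k i.1 i.2))

theorem mem_PP {k x y z : ℤ} {Z : ℕ} (h : x ^ 3 + y ^ 3 + z ^ 3 = k) (hz : |z| ≤ Z)
    (hs : 0 < x + y) : (x + y, z) ∈ PP k Z := by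
  unfold PP
  have hz1 := abs_le.1 hz
  have hf : k - z ^ 3 = (x + y) * (x ^ 2 - x * y + y ^ 2) := by rw [← h]; ring
  simp only [Finset.mem_filter, Finset.mem_product, Finset.mem_Icc]
  refine ⟨⟨⟨by omega, ?_⟩, hz1⟩, ?_, ?_⟩
  · -- the size of the sum
    by_contra hc
    push Not at hc
    have hk0 : 0 ≤ |k| := abs_nonneg k
    have hZ0 : (0 : ℤ) ≤ Z := Int.natCast_nonneg Z
    have h1 : (x + y) ^ 3 ≤ 4 * (k - z ^ 3) := by
      have h2 : 4 * (k - z ^ 3) = (x + y) ^ 3 + 3 * ((x + y) * (x - y) ^ 2) := by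
        rw [hf]; ring
      rw [h2]
      have : 0 ≤ (x + y) * (x - y) ^ 2 := mul_nonneg hs.le (sq_nonneg _)
      linarith
    have h3 : k - z ^ 3 ≤ |k| + (Z : ℤ) ^ 3 := by
      have h4 : k ≤ |k| := le_abs_self k
      have h5 : (-z) ^ 3 ≤ (Z : ℤ) ^ 3 := by
        rw [Odd.pow_le_pow (by decide : Odd 3)]
        linarith [hz1.1]
      have h6 : (-z) ^ 3 = -z ^ 3 := by ring
      linarith
    have h7 : (2 * (Z : ℤ) + 2 * |k|) ^ 3 < (x + y) ^ 3 :=
      pow_lt_pow_left₀ hc (by positivity) (by norm_num)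
    have h8 : 4 * (|k| + (Z : ℤ) ^ 3) ≤ (2 * (Z : ℤ) + 2 * |k|) ^ 3 := by
      have h9 : |k| ≤ |k| ^ 3 := by
        rcases hk0.eq_or_lt with h0 | h0
        · rw [← h0]; norm_num
        · exact le_self_pow₀ h0 (by norm_num)
      have h10 : (2 * (Z : ℤ) + 2 * |k|) ^ 3 = 8 * (Z : ℤ) ^ 3 + 8 * |k| ^ 3 +
          24 * ((Z : ℤ) ^ 2 * |k|) + 24 * ((Z : ℤ) * |k| ^ 2) := by ring
      have h11 : 0 ≤ (Z : ℤ) ^ 2 * |k| := by positivity
      have h12 : 0 ≤ (Z : ℤ) * |k| ^ 2 := by positivity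
      have h13 : 0 ≤ (Z : ℤ) ^ 3 := by positivity
      rw [h10]
      linarith
    linarith
  · refine ⟨-(x ^ 2 - x * y + y ^ 2), ?_⟩
    linear_combination -hf
  · refine ⟨3 * (x + y) * (x - y), ?_⟩
    have : 4 * k - 4 * z ^ 3 = 4 * ((x + y) * (x ^ 2 - x * y + y ^ 2)) := by rw [← hf]; ring
    unfold D
    rw [this]
    ring

theorem card_le (k : ℤ) (Z : ℕ) (T : Finset (ℤ × ℤ × ℤ))
    (hT : ∀ t ∈ T, t.1 ^ 3 + t.2.1 ^ 3 + t.2.2 ^ 3 = k ∧ |t.2.2| ≤ Z)
    (hs : ∀ t ∈ T, 0 < t.1 + t.2.1) : T.card ≤ 2 * (PP k Z).card := by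
  classical
  have h1 : ((PP k Z) ×ˢ (Finset.univ : Finset Bool)).card = 2 * (PP k Z).card := by
    rw [Finset.card_product, Finset.card_univ, Fintype.card_bool, mul_comm]
  rw [← h1]
  apply Finset.card_le_card_of_injOn
    (fun t : ℤ × ℤ × ℤ => ((t.1 + t.2.1, t.2.2), decide (t.2.1 ≤ t.1)))
  · rintro ⟨x, y, z⟩ ht
    have h2 := hT _ (Finset.mem_coe.1 ht)
    have h3 := hs _ (Finset.mem_coe.1 ht)
    rw [Finset.mem_coe, Finset.mem_product]
    exact ⟨mem_PP h2.1 h2.2 h3, Finset.mem_univ _⟩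
  · rintro ⟨x, y, z⟩ ht ⟨x', y', z'⟩ ht' heq
    have h2 := (hT _ (Finset.mem_coe.1 ht)).1
    have h2' := (hT _ (Finset.mem_coe.1 ht')).1
    have h3 := hs _ (Finset.mem_coe.1 ht)
    simp only [Prod.mk.injEq] at heq h2 h2' h3
    obtain ⟨⟨h4, h5⟩, h6⟩ := heq
    subst h5
    -- the squares of the differences agree
    have h7 : (x + y) * (x - y) ^ 2 = (x + y) * (x' - y') ^ 2 := by
      have e1 : (x + y) ^ 3 + 3 * ((x + y) * (x - y) ^ 2) = 4 * (x ^ 3 + y ^ 3) := by ring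
      have e2 : (x' + y') ^ 3 + 3 * ((x' + y') * (x' - y') ^ 2) = 4 * (x' ^ 3 + y' ^ 3) := by ring
      have e3 : x ^ 3 + y ^ 3 = x' ^ 3 + y' ^ 3 := by linarith
      rw [← h4] at e2
      linarith
    have h8 : (x - y) ^ 2 = (x' - y') ^ 2 := mul_left_cancel₀ h3.ne' h7
    have h9 : x - y = x' - y' := by
      rcases sq_eq_sq_iff_eq_or_eq_neg.1 h8 with h | h
      · exact h
      · by_cases hc : y ≤ x
        · have hc' : y' ≤ x' := by
            rw [decide_eq_true hc] at h6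
            exact of_decide_eq_true h6.symm
          omega
        · have hc' : ¬ y' ≤ x' := by
            rw [decide_eq_false hc] at h6
            exact of_decide_eq_false h6.symm
          omega
    have h10 : x = x' := by omega
    have h11 : y = y' := by omega
    rw [h10, h11]

theorem hFIN : StPRS → StFIN := by
  classical
  rintro ⟨c, hc, hprs⟩
  refine ⟨c, hc, fun k hk => ?_⟩
  have hk' : NonCube (-k) := by
    intro m hm
    apply hk (-m)
    have : (-m) ^ 3 = -(m ^ 3) := by ring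
    rw [this, hm, neg_neg]
  obtain ⟨C₁, hC₁, h₁⟩ := hprs k hk
  obtain ⟨C₂, hC₂, h₂⟩ := hprs (-k) hk'
  -- the bound by pairs
  have key : ∀ (Z : ℕ) (T : Finset (ℤ × ℤ × ℤ)),
      (∀ t ∈ T, t.1 ^ 3 + t.2.1 ^ 3 + t.2.2 ^ 3 = k ∧ |t.2.2| ≤ Z) →
      T.card ≤ 2 * (PP k Z).card + 2 * (PP (-k) Z).card := by
    intro Z T hT
    have h1 := card_le k Z (T.filter fun t => 0 < t.1 + t.2.1)
      (fun t ht => hT t (Finset.mem_filter.1 ht).1) (fun t ht => (Finset.mem_filter.1 ht).2)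
    let ν : ℤ × ℤ × ℤ → ℤ × ℤ × ℤ := fun t => (-t.1, -t.2.1, -t.2.2)
    have hν : Function.Injective ν := by
      rintro ⟨x, y, z⟩ ⟨x', y', z'⟩ h
      simp only [ν, Prod.mk.injEq, neg_inj] at h
      rw [h.1, h.2.1, h.2.2]
    have h2 := card_le (-k) Z ((T.filter fun t => ¬ 0 < t.1 + t.2.1).image ν)
      (by
        intro t ht
        obtain ⟨⟨x, y, z⟩, hu, rfl⟩ := Finset.mem_image.1 ht
        have h3 := hT _ (Finset.mem_filter.1 hu).1
        simp only [ν, abs_neg] at h3 ⊢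
        refine ⟨?_, h3.2⟩
        rw [← h3.1]
        ring)
      (by
        intro t ht
        obtain ⟨⟨x, y, z⟩, hu, rfl⟩ := Finset.mem_image.1 ht
        have h3 := (hT _ (Finset.mem_filter.1 hu).1).1
        have h4 := (Finset.mem_filter.1 hu).2
        simp only [ν] at h3 h4 ⊢
        have h5 : x + y ≠ 0 := by
          intro h0
          apply hk z
          have : y = -x := by omega
          rw [← h3, this]
          ring
        omega)
    rw [Finset.card_image_of_injective _ hν] at h2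
    have h3 := Finset.card_filter_add_card_filter_not (s := T) (fun t => 0 < t.1 + t.2.1)
    omega
  have hl2 : 0 < Real.log 2 := Real.log_pos (by norm_num)
  have hl2' : Real.log 2 ≤ 1 := by
    have := Real.log_two_lt_d9
    linarith
  refine ⟨2 * (C₁ + C₂) + (2 * (PP k 2).card + 2 * (PP (-k) 2).card : ℕ) + 1, by positivity,
    fun Z T hZ hT => ?_⟩
  rcases hZ.eq_or_lt with h2 | h2
  · subst h2
    have h3 := key 2 T hT
    have h4 : (T.card : ℝ) ≤ ((2 * (PP k 2).card + 2 * (PP (-k) 2).card : ℕ) : ℝ) := by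
      exact_mod_cast h3
    have h5 : (1 : ℝ) ≤ ((2 : ℕ) : ℝ) / Real.log ((2 : ℕ) : ℝ) ^ c := by
      have h6 : Real.log ((2 : ℕ) : ℝ) ^ c ≤ 1 := by
        push_cast
        exact Real.rpow_le_one hl2.le hl2' hc.le
      have h7 : 0 < Real.log ((2 : ℕ) : ℝ) ^ c := by
        push_cast
        exact Real.rpow_pos_of_pos hl2 c
      rw [le_div_iff₀ h7]
      push_cast at h6 ⊢
      linarith
    rw [mul_div_assoc]
    calc (T.card : ℝ) ≤ 2 * (C₁ + C₂) + ((2 * (PP k 2).card + 2 * (PP (-k) 2).card : ℕ) : ℝ) + 1 := by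
          linarith
      _ ≤ _ := le_mul_of_one_le_right (by positivity) h5
  · have hZ3 : 3 ≤ Z := h2
    have h3 := key Z T hT
    have h4 : (T.card : ℝ) ≤ 2 * ((PP k Z).card : ℝ) + 2 * ((PP (-k) Z).card : ℝ) := by
      exact_mod_cast h3
    have h5 : ((PP k Z).card : ℝ) ≤ C₁ * Z / Real.log Z ^ c := h₁ Z hZ3
    have h6 : ((PP (-k) Z).card : ℝ) ≤ C₂ * Z / Real.log Z ^ c := h₂ Z hZ3
    have hZr : (1 : ℝ) < Z := by
      have : 1 < Z := by omega
      exact_mod_cast this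
    have hlz : 0 < Real.log Z ^ c := Real.rpow_pos_of_pos (Real.log_pos hZr) c
    have h7 : 0 ≤ (Z : ℝ) / Real.log Z ^ c := by positivity
    have h8 : (0 : ℝ) ≤ ((2 * (PP k 2).card + 2 * (PP (-k) 2).card : ℕ) : ℝ) + 1 := by positivity
    rw [mul_div_assoc] at h5 h6 ⊢
    have h9 := mul_nonneg h8 h7
    nlinarith

end Pool.Agent.Helper72.CU
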